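import Pool.Agent.Y389.KM.Iter
import Pool.Agent.Y389.KM.Spec

/-! The spectral gap of the discrete KMP process with arbitrary positive site parameters on a
weighted hypergraph is the gap with two particles. -/

set_option autoImplicit false

open Finset Matrix

namespace Pool.Agent.Results.MP_19659a_pr.SiteParameters

/-- configurations of `k` particles on `n` sites -/
abbrev Config (n k : ℕ) : Type := {f : Fin n → ℕ // ∑ i, f i = k}

noncomputable instance configFintype (n k : ℕ) : Fintype (Config n k) :=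
  Fintype.subtype (Finset.piAntidiag univ k) (by simp)

/-- the weight `∏_i α_i (α_i + 1) ⋯ (α_i + f_i - 1) / f_i!` of a configuration; it is `1` if all
the site parameters `α_i` are `1` -/
noncomputable def weight {n k : ℕ} (α : Fin n → ℝ) (f : Config n k) : ℝ :=
  ∏ i, ∏ s ∈ range (f.1 i), ((α i + s) / (s + 1))

/-- the configurations `g` (with the same number of particles) which agree with `f` off `B` -/
noncomputable def mates {n k : ℕ} (B : Finset (Fin n)) (f : Config n k) : Finset (Config n k) :=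
  univ.filter (fun g => ∀ j, j ∉ B → g.1 j = f.1 j)

/-- the matrix of the redistribution operator over `B`: the column of `f` is the probability
distribution proportional to `weight α` on the configurations which agree with `f` off `B` -/
noncomputable def avgOp {n k : ℕ} (α : Fin n → ℝ) (B : Finset (Fin n)) :
    Matrix (Config n k) (Config n k) ℂ :=
  Matrix.of fun g f =>
    if g ∈ mates B f then ((weight α g / ∑ h ∈ mates B f, weight α h : ℝ) : ℂ) else 0

/-- the Laplacian `Σ_B w_B (1 - N_B)` on `k` particles -/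
noncomputable def laplacian {n : ℕ} (α : Fin n → ℝ) (w : Finset (Fin n) → ℝ) (k : ℕ) :
    Matrix (Config n k) (Config n k) ℂ :=
  ∑ B : Finset (Fin n), (w B : ℂ) • (1 - avgOp α B)

/-- the spectrum with multiplicity, one copy of the eigenvalue `0` removed -/
noncomputable def specStar {n : ℕ} (α : Fin n → ℝ) (w : Finset (Fin n) → ℝ) (k : ℕ) :
    Multiset ℂ :=
  (laplacian α w k).charpoly.roots.erase 0

/-- `x` is the smallest element of the spectrum after one copy of `0` is removed -/
def IsLamStar {n : ℕ} (α : Fin n → ℝ) (w : Finset (Fin n) → ℝ) (k : ℕ) (x : ℝ) : Prop :=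
  (x : ℂ) ∈ specStar α w k ∧ ∀ z ∈ specStar α w k, z.im = 0 ∧ x ≤ z.re

open Pool.Agent.W832.KMP (dl sum_add_dl cls mem_cls form qq)
open Pool.Agent.Y389.KM

variable {n : ℕ}

/-- with all site parameters equal to `1` the redistribution is uniform -/
theorem avgOp_one {k : ℕ} (B : Finset (Fin n)) (g f : Config n k) :
    avgOp (fun _ => 1) B g f = if g ∈ mates B f then 1 / ((mates B f).card : ℂ) else 0 := by
  have h : ∀ h : Config n k, weight (fun _ => (1 : ℝ)) h = 1 := fun h => rho_one h.1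
  simp [avgOp, h]

/-- real version -/
noncomputable def avgR (α : Fin n → ℝ) (k : ℕ) (B : Finset (Fin n)) :
    Matrix (Config n k) (Config n k) ℝ :=
  Matrix.of fun g f => if g ∈ mates B f then weight α g / ∑ h ∈ mates B f, weight α h else 0

noncomputable def lapR (α : Fin n → ℝ) (w : Finset (Fin n) → ℝ) (k : ℕ) :
    Matrix (Config n k) (Config n k) ℝ :=
  ∑ B : Finset (Fin n), w B • (1 - avgR α k B)

theorem lapR_map (α : Fin n → ℝ) (w : Finset (Fin n) → ℝ) (k : ℕ) :
    (lapR α w k).map (fun x : ℝ => (x : ℂ)) = laplacian α w k := by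
  ext g f
  simp only [Matrix.map_apply, lapR, laplacian, Matrix.sum_apply, Matrix.smul_apply,
    Matrix.sub_apply, smul_eq_mul]
  push_cast
  apply Finset.sum_congr rfl
  intro B _
  congr 1
  have h1 : (((1 : Matrix (Config n k) (Config n k) ℝ) g f : ℝ) : ℂ) =
      (1 : Matrix (Config n k) (Config n k) ℂ) g f := by
    by_cases h : g = f
    · subst h; simp
    · simp [Matrix.one_apply_ne h]
  rw [h1]
  congr 1
  simp only [avgR, avgOp, Matrix.of_apply]
  split_ifs <;> simp

theorem mem_mates {k : ℕ} {B : Finset (Fin n)} {f g : Config n k} :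
    g ∈ mates B f ↔ ∀ j, j ∉ B → g.1 j = f.1 j := by
  simp [mates]

theorem mates_eq {k : ℕ} {B : Finset (Fin n)} {f g : Config n k} (h : g ∈ mates B f) :
    mates B g = mates B f := by
  rw [mem_mates] at h
  ext x
  rw [mem_mates, mem_mates]
  exact ⟨fun h1 j hj => (h1 j hj).trans (h j hj), fun h1 j hj => (h1 j hj).trans (h j hj).symm⟩

theorem mates_symm {k : ℕ} {B : Finset (Fin n)} {f g : Config n k} :
    g ∈ mates B f ↔ f ∈ mates B g := by
  rw [mem_mates, mem_mates]
  exact ⟨fun h j hj => (h j hj).symm, fun h j hj => (h j hj).symm⟩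

/-- square root of the weight -/
noncomputable def sq (α : Fin n → ℝ) (k : ℕ) (f : Config n k) : ℝ := Real.sqrt (weight α f)

/-- the symmetrised averaging matrix -/
noncomputable def avgS (α : Fin n → ℝ) (k : ℕ) (B : Finset (Fin n)) :
    Matrix (Config n k) (Config n k) ℝ :=
  Matrix.of fun g f => if g ∈ mates B f then
    sq α k g * sq α k f / ∑ h ∈ mates B f, weight α h else 0

noncomputable def lapS (α : Fin n → ℝ) (w : Finset (Fin n) → ℝ) (k : ℕ) :
    Matrix (Config n k) (Config n k) ℝ :=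
  ∑ B : Finset (Fin n), w B • (1 - avgS α k B)

theorem avgS_symm (α : Fin n → ℝ) (k : ℕ) (B : Finset (Fin n)) (f g : Config n k) :
    avgS α k B f g = avgS α k B g f := by
  simp only [avgS, Matrix.of_apply]
  by_cases h : g ∈ mates B f
  · rw [if_pos h, if_pos (mates_symm.1 h), mates_eq h, mul_comm (sq α k f)]
  · rw [if_neg h, if_neg (fun h' => h (mates_symm.1 h'))]

theorem lapS_herm (α : Fin n → ℝ) (w : Finset (Fin n) → ℝ) (k : ℕ) :
    (lapS α w k).IsHermitian := by
  rw [Matrix.IsHermitian, conjTranspose_eq_transpose_of_trivial]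
  ext g f
  simp only [Matrix.transpose_apply, lapS, Matrix.sum_apply, Matrix.smul_apply,
    Matrix.sub_apply, smul_eq_mul]
  apply Finset.sum_congr rfl
  intro B _
  rw [avgS_symm]
  congr 2
  by_cases h : g = f
  · subst h; rfl
  · rw [Matrix.one_apply_ne h, Matrix.one_apply_ne (Ne.symm h)]

section pos

variable {α : Fin n → ℝ} [hα : Fact (∀ i, 0 < α i)]

theorem weight_pos {k : ℕ} (f : Config n k) : 0 < weight α f := rho_pos f.1

theorem sq_pos {k : ℕ} (f : Config n k) : 0 < sq α k f := Real.sqrt_pos.2 (weight_pos f)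

theorem sq_mul {k : ℕ} (f : Config n k) : sq α k f * sq α k f = weight α f :=
  Real.mul_self_sqrt (weight_pos f).le

theorem lapR_apply (w : Finset (Fin n) → ℝ) (k : ℕ) (g f : Config n k) :
    lapR α w k g f = sq α k g * (lapS α w k g f * (sq α k f)⁻¹) := by
  simp only [lapR, lapS, Matrix.sum_apply, Matrix.smul_apply, Matrix.sub_apply, smul_eq_mul]
  rw [Finset.sum_mul, Finset.mul_sum]
  apply Finset.sum_congr rfl
  intro B _
  have hf := (sq_pos (α := α) f).ne'
  have hg := (sq_pos (α := α) g).ne'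
  have h1 : (1 : Matrix (Config n k) (Config n k) ℝ) g f =
      sq α k g * ((1 : Matrix (Config n k) (Config n k) ℝ) g f * (sq α k f)⁻¹) := by
    by_cases h : g = f
    · subst h
      rw [Matrix.one_apply_eq, one_mul, mul_inv_cancel₀ hf]
    · rw [Matrix.one_apply_ne h, zero_mul, mul_zero]
  have h2 : avgR α k B g f = sq α k g * (avgS α k B g f * (sq α k f)⁻¹) := by
    simp only [avgR, avgS, Matrix.of_apply]
    split_ifs
    · rw [← sq_mul (α := α) g]
      field_simp
    · simp
  rw [h2]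
  linear_combination (w B) * h1

theorem charpoly_eq (w : Finset (Fin n) → ℝ) (k : ℕ) :
    (lapR α w k).charpoly = (lapS α w k).charpoly := by
  have e : lapR α w k = Matrix.diagonal (sq α k) *
      (lapS α w k * Matrix.diagonal (fun f => (sq α k f)⁻¹)) := by
    ext g f
    rw [Matrix.diagonal_mul, Matrix.mul_diagonal, lapR_apply]
  rw [e, Matrix.charpoly_mul_comm, Matrix.mul_assoc, Matrix.diagonal_mul_diagonal]
  have h : (fun f => (sq α k f)⁻¹ * sq α k f) = fun _ : Config n k => (1 : ℝ) := by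
    funext f
    exact inv_mul_cancel₀ (sq_pos f).ne'
  rw [h, Matrix.diagonal_one, Matrix.mul_one]

theorem charpoly_map_eq (w : Finset (Fin n) → ℝ) (k : ℕ) :
    (laplacian α w k).charpoly = ((lapS α w k).map (fun x : ℝ => (x : ℂ))).charpoly := by
  rw [← lapR_map]
  have h1 := Matrix.charpoly_map (lapR α w k) Complex.ofRealHom
  have h2 := Matrix.charpoly_map (lapS α w k) Complex.ofRealHom
  have e1 : (lapR α w k).map Complex.ofRealHom =
      (lapR α w k).map (fun x : ℝ => (x : ℂ)) := rfl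
  have e2 : (lapS α w k).map Complex.ofRealHom =
      (lapS α w k).map (fun x : ℝ => (x : ℂ)) := rfl
  rw [e1] at h1
  rw [e2] at h2
  rw [h1, h2, charpoly_eq]

omit hα in
theorem sum_mates {k : ℕ} (B : Finset (Fin n)) (f : Config n k) (c : (Fin n → ℕ) → ℝ) :
    ∑ g ∈ mates B f, c g.1 = ∑ g ∈ cls B f.1, c g := by
  refine Finset.sum_bij (fun g _ => g.1) ?_ ?_ ?_ ?_
  · intro g hg
    rw [mem_cls]
    exact ⟨by rw [g.2, f.2], mem_mates.1 hg⟩
  · intro g _ g' _ h
    exact Subtype.ext h
  · intro g hg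
    rw [mem_cls] at hg
    exact ⟨⟨g, by rw [hg.1, f.2]⟩, mem_mates.2 hg.2, rfl⟩
  · intro g _
    rfl

/-- the action of the symmetrised matrix -/
theorem avgS_mulVec (k : ℕ) (B : Finset (Fin n)) (c : (Fin n → ℕ) → ℝ) (f : Config n k) :
    (avgS α k B *ᵥ (fun g : Config n k => sq α k g * c g.1)) f = sq α k f * av α B c f.1 := by
  simp only [mulVec, dotProduct]
  have : ∀ g : Config n k, avgS α k B f g * (sq α k g * c g.1) =
      if g ∈ mates B f then
        (sq α k f / ∑ h ∈ mates B f, weight α h) * (rho α g.1 * c g.1) else 0 := by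
    intro g
    rw [avgS_symm]
    simp only [avgS, Matrix.of_apply]
    have hw : rho α g.1 = sq α k g * sq α k g := (sq_mul g).symm
    rw [hw]
    split_ifs
    · ring
    · simp
  have h2 := sum_mates B f (fun g => rho α g * c g)
  have h3 : ∑ h ∈ mates B f, weight α h = ∑ g ∈ cls B f.1, rho α g :=
    sum_mates B f (fun g => rho α g)
  rw [Finset.sum_congr rfl (fun g _ => this g), Finset.sum_ite_mem, Finset.univ_inter,
    ← Finset.mul_sum, h2, h3]
  unfold av ZZ
  ring

theorem lapS_mulVec (w : Finset (Fin n) → ℝ) (k : ℕ) (c : (Fin n → ℕ) → ℝ) :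
    lapS α w k *ᵥ (fun g : Config n k => sq α k g * c g.1) =
      fun f => sq α k f * LA α w c f.1 := by
  funext f
  have : lapS α w k *ᵥ (fun g : Config n k => sq α k g * c g.1) =
      ∑ B, w B • ((fun g : Config n k => sq α k g * c g.1) -
        avgS α k B *ᵥ (fun g : Config n k => sq α k g * c g.1)) := by
    unfold lapS
    rw [Matrix.sum_mulVec]
    apply Finset.sum_congr rfl
    intro B _
    rw [Matrix.smul_mulVec, Matrix.sub_mulVec, Matrix.one_mulVec]
  rw [this]
  simp only [Finset.sum_apply, Pi.smul_apply, Pi.sub_apply, smul_eq_mul]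
  unfold LA
  rw [Finset.mul_sum]
  apply Finset.sum_congr rfl
  intro B _
  rw [avgS_mulVec]
  ring

theorem exists_ext {k : ℕ} (v : Config n k → ℝ) :
    ∃ c : (Fin n → ℕ) → ℝ, (fun g : Config n k => sq α k g * c g.1) = v := by
  classical
  refine ⟨fun f => if h : ∑ i, f i = k then v ⟨f, h⟩ / sq α k ⟨f, h⟩ else 0, ?_⟩
  funext g
  have := (sq_pos (α := α) g).ne'
  simp only [g.2, dif_pos]
  field_simp

theorem EigP_iff (w : Finset (Fin n) → ℝ) (k : ℕ) (y : ℝ) :
    EigP (lapS α w k) (sq α k) y ↔ EigA α w k y := by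
  constructor
  · rintro ⟨v, hv, hnc⟩
    obtain ⟨c, rfl⟩ := exists_ext (α := α) v
    refine ⟨c, fun f hf => ?_, ?_⟩
    · rw [lapS_mulVec] at hv
      have := congrFun hv ⟨f, hf⟩
      simp only [Pi.smul_apply, smul_eq_mul] at this
      have h0 := (sq_pos (α := α) (⟨f, hf⟩ : Config n k)).ne'
      apply mul_left_cancel₀ h0
      rw [this]
      ring
    · by_contra hcon
      push Not at hcon
      rcases isEmpty_or_nonempty (Config n k) with he | ⟨⟨p0⟩⟩
      · exact hnc 0 (funext fun g => (he.false g).elim)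
      · apply hnc (c p0.1)
        funext g
        simp only [Pi.smul_apply, smul_eq_mul]
        rw [hcon g.1 p0.1 g.2 p0.2]
        ring
  · rintro ⟨c, hc, f, g, hf, hg, hne⟩
    refine ⟨fun g => sq α k g * c g.1, ?_, ?_⟩
    · rw [lapS_mulVec]
      funext p
      simp only [Pi.smul_apply, smul_eq_mul]
      rw [hc p.1 p.2]
      ring
    · intro a ha
      have h1 := congrFun ha ⟨f, hf⟩
      have h2 := congrFun ha ⟨g, hg⟩
      simp only [Pi.smul_apply, smul_eq_mul] at h1 h2
      rw [mul_comm] at h1 h2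
      have h3 := mul_right_cancel₀ (sq_pos (α := α) (⟨f, hf⟩ : Config n k)).ne' h1
      have h4 := mul_right_cancel₀ (sq_pos (α := α) (⟨g, hg⟩ : Config n k)).ne' h2
      exact hne (h3.trans h4.symm)

theorem lapS_sq (w : Finset (Fin n) → ℝ) (k : ℕ) : lapS α w k *ᵥ (sq α k) = 0 := by
  have := lapS_mulVec (α := α) w k (fun _ => 1)
  have e : (fun g : Config n k => sq α k g * 1) = sq α k := by
    funext g
    rw [mul_one]
  rw [e] at this
  rw [this]
  funext f
  simp [LA, av_const]

theorem mem_specStar (i0 : Fin n) (w : Finset (Fin n) → ℝ) (k : ℕ) (z : ℂ) :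
    z ∈ specStar α w k ↔ ∃ y : ℝ, z = y ∧ EigA α w k y := by
  have hp : sq α k ≠ 0 := by
    intro h
    have := congrFun h (⟨Pi.single i0 k, by simp⟩ : Config n k)
    exact (sq_pos _).ne' this
  unfold specStar
  rw [charpoly_map_eq, mem_roots_eraseP (lapS α w k) (lapS_herm α w k) (sq α k) hp (lapS_sq w k)]
  simp only [EigP_iff]

theorem isLamStar_iff (i0 : Fin n) (w : Finset (Fin n) → ℝ) (k : ℕ) (x : ℝ) :
    IsLamStar α w k x ↔ EigA α w k x ∧ ∀ y, EigA α w k y → x ≤ y := by
  unfold IsLamStar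
  constructor
  · rintro ⟨h1, h2⟩
    obtain ⟨y, hy, hE⟩ := (mem_specStar i0 w k _).1 h1
    have : x = y := by exact_mod_cast hy
    subst this
    refine ⟨hE, fun y hy => ?_⟩
    have := (h2 (y : ℂ) ((mem_specStar i0 w k _).2 ⟨y, rfl, hy⟩)).2
    simpa using this
  · rintro ⟨h1, h2⟩
    refine ⟨(mem_specStar i0 w k _).2 ⟨x, rfl, h1⟩, fun z hz => ?_⟩
    obtain ⟨y, rfl, hE⟩ := (mem_specStar i0 w k _).1 hz
    exact ⟨by simp, by simpa using h2 y hE⟩

omit hα in
theorem form_const_zero (c : (Fin n → ℕ) → ℝ) (a : ℝ)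
    (hc : ∀ f : Fin n → ℕ, ∑ i, f i = 2 → c f = a)
    (u : Fin n → ℝ) (hu : ∑ i, u i = 0) : form c 0 u = 0 := by
  unfold form
  have : ∀ i j, u i * u j * c (0 + dl i + dl j) = u i * u j * a := by
    intro i j
    rw [hc]
    rw [sum_add_dl, sum_add_dl]
    simp
  simp only [this]
  simp only [← Finset.sum_mul, ← Finset.mul_sum, hu, mul_zero, zero_mul, Finset.sum_const_zero]

/-- the functional `form · 0 u` in the symmetrised coordinates -/
noncomputable def formLin (α : Fin n → ℝ) (u : Fin n → ℝ) : (Config n 2 → ℝ) →ₗ[ℝ] ℝ where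
  toFun v := ∑ a, ∑ b, u a * u b *
    (v ⟨0 + dl a + dl b, by rw [sum_add_dl, sum_add_dl]; simp⟩ /
      sq α 2 ⟨0 + dl a + dl b, by rw [sum_add_dl, sum_add_dl]; simp⟩)
  map_add' v v' := by
    rw [← Finset.sum_add_distrib]
    apply Finset.sum_congr rfl
    intro a _
    rw [← Finset.sum_add_distrib]
    apply Finset.sum_congr rfl
    intro b _
    rw [Pi.add_apply]
    ring
  map_smul' r v := by
    simp only [Pi.smul_apply, smul_eq_mul, RingHom.id_apply, Finset.mul_sum]
    apply Finset.sum_congr rfl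
    intro a _
    apply Finset.sum_congr rfl
    intro b _
    ring

theorem formLin_apply (u : Fin n → ℝ) (c : (Fin n → ℕ) → ℝ) :
    formLin α u (fun g : Config n 2 => sq α 2 g * c g.1) = form c 0 u := by
  have hs : ∀ a b : Fin n, ∑ i, (0 + dl a + dl b) i = 2 := fun a b => by
    rw [sum_add_dl, sum_add_dl]; simp
  change ∑ a : Fin n, ∑ b : Fin n, u a * u b *
    (sq α 2 ⟨0 + dl a + dl b, hs a b⟩ * c (0 + dl a + dl b) /
      sq α 2 ⟨0 + dl a + dl b, hs a b⟩) = form c 0 u
  unfold form
  refine Finset.sum_congr rfl fun a _ => Finset.sum_congr rfl fun b _ => ?_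
  congr 1
  rw [mul_comm, mul_div_assoc, div_self (sq_pos _).ne', mul_one]

omit hα in
theorem card_config (hn : 2 ≤ n) : 1 < Fintype.card (Config n 2) := by
  rw [Fintype.one_lt_card_iff]
  have h0 : 0 < n := by omega
  have h1 : 1 < n := by omega
  refine ⟨⟨Pi.single ⟨0, h0⟩ 2, by simp⟩, ⟨Pi.single ⟨1, h1⟩ 2, by simp⟩, ?_⟩
  intro h
  have := congrFun (congrArg Subtype.val h) ⟨0, h0⟩
  simp at this

theorem main (hn : 2 ≤ n) (w : Finset (Fin n) → ℝ) (hw : ∀ B, 0 ≤ w B) :
    ∃ x : ℝ, (EigA α w 2 x ∧ ∀ y, EigA α w 2 y → x ≤ y) ∧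
      ∀ k, 2 ≤ k → (EigA α w k x ∧ ∀ y, EigA α w k y → x ≤ y) := by
  obtain ⟨x0, hx0, hmin⟩ := exists_leastP (lapS α w 2) (lapS_herm α w 2) (sq α 2)
    (card_config hn)
  rw [EigP_iff] at hx0
  have hmin' : ∀ y, EigA α w 2 y → x0 ≤ y := fun y hy => hmin y ((EigP_iff w 2 y).2 hy)
  have i0 : Fin n := ⟨0, by omega⟩
  refine ⟨x0, ⟨hx0, hmin'⟩, ?_⟩
  set W : ℝ := ∑ B, w B with hW
  have hW0 : 0 ≤ W := Finset.sum_nonneg fun B _ => hw B
  set ε : ℝ := 1 / (2 * W + 1) with hε
  have hden : 0 < 2 * W + 1 := by linarith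
  have hεpos : 0 < ε := by positivity
  have hεW : ε * W ≤ 1 := by
    rw [hε, div_mul_eq_mul_div, one_mul, div_le_one hden]
    linarith
  have hlam : ∀ y, EigA α w 2 y → 0 ≤ 1 - ε * y := by
    intro y hy
    have h1 := EigA_le w hw 2 y hy
    have h2 : ε * y ≤ ε * (2 * W) := mul_le_mul_of_nonneg_left h1 hεpos.le
    have h3 : ε * (2 * W) ≤ 1 := by
      rw [hε, div_mul_eq_mul_div, one_mul, div_le_one hden]
      linarith
    linarith
  have hup : ∀ m, EigA α w (m + 2) x0 := by
    intro m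
    induction m with
    | zero => exact hx0
    | succ m ih => exact EigA_up i0 w (m + 2) x0 ih
  have hq : ∀ u : Fin n → ℝ, ∑ i, u i = 0 →
      ∃ C : ℝ, ∀ t : ℕ, |form ((PA α w ε)^[t] qq) 0 u| ≤ C * (1 - ε * x0) ^ t := by
    intro u hu
    have hs1 : ∀ y, EigP (lapS α w 2) (sq α 2) y → |1 - ε * y| ≤ 1 - ε * x0 := by
      intro y hy
      rw [EigP_iff] at hy
      rw [abs_of_nonneg (hlam y hy)]
      have h2 : ε * x0 ≤ ε * y := mul_le_mul_of_nonneg_left (hmin' y hy) hεpos.le
      linarith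
    have hs2 : formLin α u (sq α 2) = 0 := by
      have e : (fun g : Config n 2 => sq α 2 g * 1) = sq α 2 := by
        funext g
        rw [mul_one]
      rw [← e, formLin_apply u (fun _ => 1)]
      exact form_const_zero _ 1 (fun _ _ => rfl) u hu
    obtain ⟨C, hC⟩ := spec_boundP (lapS α w 2) (lapS_herm α w 2) (sq α 2) ε (1 - ε * x0) hs1
      (formLin α u) hs2 (fun g : Config n 2 => sq α 2 g * qq g.1)
    refine ⟨C, fun t => ?_⟩
    have h1 : ∀ t : ℕ, (fun x => x - ε • (lapS α w 2 *ᵥ x))^[t]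
          (fun g : Config n 2 => sq α 2 g * qq g.1) =
        fun g : Config n 2 => sq α 2 g * ((PA α w ε)^[t] qq) g.1 := by
      intro t
      induction t with
      | zero => rfl
      | succ t ih =>
        rw [Function.iterate_succ_apply', ih, lapS_mulVec]
        funext g
        rw [Function.iterate_succ_apply']
        simp only [Pi.sub_apply, Pi.smul_apply, smul_eq_mul]
        unfold PA
        ring
    have h2 := hC t
    rw [h1 t, formLin_apply] at h2
    exact h2
  intro k hk
  obtain ⟨m, rfl⟩ : ∃ m, k = m + 2 := ⟨k - 2, by omega⟩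
  exact ⟨hup m, EigA_lower i0 w hw ε hεpos hεW x0 hmin' hq (hlam x0 hx0) m⟩

end pos

/-- For every `n ≥ 2`, all site parameters `α_i > 0`, all nonnegative weights on the subsets of
`[n]` and every `k ≥ 2`, the smallest nontrivial eigenvalue with `k` particles exists and equals
the one with two. -/
theorem result (n : ℕ) (hn : 2 ≤ n) (α : Fin n → ℝ) (hα : ∀ i, 0 < α i)
    (w : Finset (Fin n) → ℝ) (hw : ∀ B, 0 ≤ w B) (k : ℕ) (hk : 2 ≤ k) :
    ∃ x : ℝ, IsLamStar α w k x ∧ IsLamStar α w 2 x := by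
  have : Fact (∀ i, 0 < α i) := ⟨hα⟩
  have i0 : Fin n := ⟨0, by omega⟩
  obtain ⟨x, h2, hall⟩ := main (α := α) hn w hw
  exact ⟨x, (isLamStar_iff i0 w k x).2 (hall k hk), (isLamStar_iff i0 w 2 x).2 h2⟩

end Pool.Agent.Results.MP_19659a_pr.SiteParameters
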